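import Pool.Agent.Lib.helper9.BorsukUlam

set_option autoImplicit false

namespace Pool.Agent.H.MP_f4f44f_al

open Set Filter Topology

/-- The arc component of the identity in the homeomorphism group of `A` (topology of uniform convergence). -/
def Arc (A : Type) [TopologicalSpace A] : Set (A ≃ₜ A) :=
  {φ | φ = 1 ∨ ∃ γ : unitInterval → A ≃ₜ A, Function.Injective γ ∧ Continuous (fun t => (γ t : C(A, A))) ∧ γ 0 = 1 ∧ γ 1 = φ}

abbrev W := (ℕ → ℕ → ℝ) × (ℕ → ℝ) × ℝ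

def Q : Set (ℕ → ℝ) := univ.pi fun _ => Icc (-1) 1

theorem ex_q : ∃ q : ℕ → ℕ → ℝ, ∀ p ∈ Q, ∀ U ∈ 𝓝 p, ∀ N, ∃ m ≥ N, q m ∈ U ∧ q m ∈ Q := by
  have : Nonempty Q := ⟨⟨0, fun _ _ => by simp⟩⟩
  refine ⟨fun m => (TopologicalSpace.denseSeq Q m.unpair.1).1, fun p h U a N => ?_⟩
  obtain ⟨n, b⟩ := (TopologicalSpace.denseRange_denseSeq Q).mem_nhds (continuous_subtype_val.continuousAt (x := ⟨p, h⟩) a)
  exact ⟨n.pair N, Nat.right_le_pair .., by simpa using b, Subtype.prop _⟩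

noncomputable def q : ℕ → ℕ → ℝ := ex_q.choose

def e (x : (ℕ → ℝ) × ℝ × ℝ) : W := (fun i j => x.1 i * x.1 j, fun i => x.2.1 * x.1 i, x.2.2)

def B : Set ((ℕ → ℝ) × ℝ) := {x | x.1 ∈ Q ∧ x.2 ∈ Icc 0 1 ∧ ∀ N : ℕ, x.2 ≤ 1 / (N + 1) ∨ ∃ m < N, x = (q m, 1 / (m + 1 : ℝ))}

def K : Set ((ℕ → ℝ) × ℝ × ℝ) := {x | (x.1, x.2.2) ∈ B ∧ x.2.1 ∈ Icc (-1) 1}

theorem K_cpt : IsCompact K := by
  have a : IsCompact Q := isCompact_univ_pi fun _ => isCompact_Icc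
  have b : IsClosed B := (a.isClosed.preimage continuous_fst).inter ((isClosed_Icc.preimage continuous_snd).inter (by
    change IsClosed {x : (ℕ → ℝ) × ℝ | ∀ N : ℕ, x.2 ≤ 1 / (N + 1) ∨ ∃ m < N, x = (q m, 1 / (m + 1 : ℝ))}
    rw [ofPred_forall]
    refine isClosed_iInter fun N => (isClosed_le continuous_snd continuous_const).union (Finite.isClosed ?_)
    exact ((finite_lt_nat N).image fun m => (q m, 1 / (m + 1 : ℝ))).subset fun x ⟨m, a, b⟩ => ⟨m, a, b.symm⟩))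
  exact (a.prod (isCompact_Icc.prod isCompact_Icc)).of_isClosed_subset
    ((b.preimage (by fun_prop)).inter (isClosed_Icc.preimage (by fun_prop))) fun x h => ⟨h.1.1, h.2, h.1.2.1⟩

abbrev A := ↥(e '' K)

instance : CompactSpace A := isCompact_iff_compactSpace.1 (K_cpt.image (by unfold e; fun_prop))

theorem B_cases {x : (ℕ → ℝ) × ℝ} (h : x ∈ B) : x.2 = 0 ∨ ∃ m, x = (q m, 1 / (m + 1 : ℝ)) := by
  refine or_iff_not_imp_left.2 fun a => ?_
  obtain ⟨N, b⟩ := exists_nat_one_div_lt (lt_of_le_of_ne h.2.1.1 (Ne.symm a))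
  obtain ⟨m, -, c⟩ := (h.2.2 N).resolve_left b.not_ge
  exact ⟨m, c⟩

theorem B0 {p : ℕ → ℝ} (h : p ∈ Q) : (p, 0) ∈ B := ⟨h, by simp, fun N => .inl (by positivity)⟩

theorem Bq {m : ℕ} (h : q m ∈ Q) : (q m, 1 / (m + 1 : ℝ)) ∈ B :=
  ⟨h, ⟨by positivity, by simpa using inv_le_one_of_one_le₀ (by linarith [m.cast_nonneg (α := ℝ)])⟩, fun N =>
    (lt_or_ge m N).symm.imp (fun a => Nat.one_div_le_one_div a) fun a => ⟨m, a, rfl⟩⟩

theorem tau {φ : A ≃ₜ A} (h : φ ∈ Arc A) (a : A) : (φ a).1.2.2 = a.1.2.2 := by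
  rcases h with rfl | ⟨γ, -, c, h0, rfl⟩
  · rfl
  have t : IsTotallyDisconnected (insert 0 (range fun m : ℕ => 1 / (m + 1 : ℝ))) :=
    ((countable_range _).insert _).isTotallyDisconnected
  have := t (range fun t => (γ t a).1.2.2) (by
    rintro _ ⟨t, rfl⟩
    obtain ⟨x, b, d⟩ := (γ t a).2
    dsimp only
    rw [← d]
    exact (B_cases b.1).imp id fun ⟨m, f⟩ => ⟨m, (congrArg Prod.snd f).symm⟩)
    (isPreconnected_range (continuous_subtype_val.comp ((continuous_eval_const a).comp c)).snd.snd) ⟨1, rfl⟩ ⟨0, rfl⟩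
  simpa [h0] using this

def z (x : B) : A := ⟨e (x.1.1, 0, x.1.2), _, ⟨x.2, by simp⟩, rfl⟩

theorem fib {φ : A ≃ₜ A} (h : φ ∈ Arc A) {p : ℕ → ℝ} (a : p ∈ Q) : (φ (z ⟨_, B0 a⟩)).1.1 = (z ⟨_, B0 a⟩).1.1 := by
  have c : Continuous z := Continuous.subtype_mk (by unfold e; fun_prop) _
  by_contra n
  have o : IsOpen {x : B | (φ (z x)).1.1 ≠ (z x).1.1} := isOpen_ne_fun (by fun_prop) (by fun_prop)
  obtain ⟨u, b, d⟩ := (mem_nhds_subtype ..).1 (o.mem_nhds (x := ⟨_, B0 a⟩) n)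
  obtain ⟨U, b, V, f, g⟩ := mem_nhds_prod_iff.1 b
  obtain ⟨N, f⟩ := eventually_atTop.1 (tendsto_one_div_add_atTop_nhds_zero_nat.eventually f)
  obtain ⟨m, k, l, r⟩ := ex_q.choose_spec p a U b N
  refine d (a := ⟨_, Bq r⟩) (g ⟨l, f m k⟩) ?_
  have t := tau h (z ⟨_, Bq r⟩)
  obtain ⟨x, b, d⟩ := (φ (z ⟨_, Bq r⟩)).2
  rw [← d] at t ⊢
  rcases B_cases b.1 with s | ⟨n, s⟩
  · exact absurd (s.symm.trans t) (by positivity : (0 : ℝ) < 1 / (m + 1)).ne
  · obtain rfl : n = m := by simpa [z, e] using (congrArg Prod.snd s).symm.trans t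
    simp only [e, z, show x.1 = q n from congrArg Prod.fst s]

noncomputable def ψ (j : ℕ) (t : ℝ) (w : W) : W := (w.1, fun i => (w.2.1 i + t / 2 * w.1 j i) / (1 + t / 2 * w.2.1 j), w.2.2)

theorem bd {s c : ℝ} (a : s ∈ Icc (-1 : ℝ) 1) (b : |c| ≤ 1 / 2) : 0 < 1 + c * s ∧ (s + c) / (1 + c * s) ∈ Icc (-1 : ℝ) 1 := by
  obtain ⟨b1, b2⟩ := abs_le.1 b
  have : 0 < 1 + c * s := by nlinarith [a.1, a.2]
  exact ⟨this, by rw [le_div_iff₀ this]; nlinarith [a.1, a.2], by rw [div_le_iff₀ this]; nlinarith [a.1, a.2]⟩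

theorem ψ_e (j : ℕ) {t : ℝ} (h : |t| ≤ 1) {x} (a : x ∈ K) : 0 < 1 + t / 2 * x.1 j * x.2.1 ∧
    (x.1, (x.2.1 + t / 2 * x.1 j) / (1 + t / 2 * x.1 j * x.2.1), x.2.2) ∈ K ∧
    ψ j t (e x) = e (x.1, (x.2.1 + t / 2 * x.1 j) / (1 + t / 2 * x.1 j * x.2.1), x.2.2) := by
  have := bd (c := t / 2 * x.1 j) a.2 (by
    rw [abs_mul, abs_div, abs_two]; nlinarith [abs_le.2 (a.1.1 j trivial), abs_nonneg t, abs_nonneg (x.1 j)])
  refine ⟨this.1, ⟨a.1, this.2⟩, Prod.ext rfl (Prod.ext (funext fun i => ?_) rfl)⟩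
  simp only [ψ, e]
  ring

noncomputable def Ψ (j : ℕ) (t : Icc (-1 : ℝ) 1) (a : A) : A := ⟨ψ j t a, by
  obtain ⟨_, x, b, rfl⟩ := a
  exact ⟨_, (ψ_e j (abs_le.2 t.2) b).2.1, (ψ_e j (abs_le.2 t.2) b).2.2.symm⟩⟩

theorem Ψ_cont (j : ℕ) : Continuous fun x : Icc (-1 : ℝ) 1 × A => Ψ j x.1 x.2 := by
  refine Continuous.subtype_mk ((by fun_prop : Continuous _).prodMk (Continuous.prodMk (continuous_pi fun i => Continuous.div (by fun_prop)
    (by fun_prop) ?_) (by fun_prop))) _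
  rintro ⟨t, _, x, b, rfl⟩
  convert (ψ_e j (abs_le.2 t.2) b).1.ne' using 2
  simp only [e]
  ring

theorem Ψ_inv (j : ℕ) (t u : Icc (-1 : ℝ) 1) (h : t.1 = -u.1) (a : A) : Ψ j t (Ψ j u a) = a := by
  obtain ⟨_, x, b, rfl⟩ := a
  obtain ⟨c, d, f⟩ := ψ_e j (abs_le.2 u.2) b
  obtain ⟨g, -, k⟩ := ψ_e j (abs_le.2 t.2) d
  refine Subtype.ext ((congrArg (ψ j t) f).trans (k.trans (congrArg e (Prod.ext rfl (Prod.ext ?_ rfl)))))
  dsimp only at g ⊢
  rw [div_eq_iff g.ne', show t.1 / 2 * x.1 j = -(u.1 / 2 * x.1 j) by rw [h]; ring]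
  generalize u.1 / 2 * x.1 j = y at c
  have : 1 + x.2.1 * y ≠ 0 := mul_comm y _ ▸ c.ne'
  rw [mul_comm y]
  field_simp
  ring

noncomputable def γ (j : ℕ) (t : unitInterval) : A ≃ₜ A where
  toFun := Ψ j ⟨t, by linarith [t.2.1], t.2.2⟩
  invFun := Ψ j ⟨-t, by linarith [t.2.2], by linarith [t.2.1]⟩
  left_inv := Ψ_inv j _ _ rfl
  right_inv := Ψ_inv j _ _ (neg_neg _).symm
  continuous_toFun := (Ψ_cont j).comp (Continuous.prodMk_right _)
  continuous_invFun := (Ψ_cont j).comp (Continuous.prodMk_right _)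

theorem fix (s : Finset (A ≃ₜ A)) (h : ∀ φ ∈ s, φ ∈ Arc A) : ∃ p, ∃ a : p ∈ Q, p ≠ 0 ∧ ∀ φ ∈ s, φ (z ⟨_, B0 a⟩) = z ⟨_, B0 a⟩ := by
  let p : EuclideanSpace ℝ (Fin (s.card + 1)) → ℕ → ℝ := fun x i => if h : i < s.card + 1 then projIcc (-1) 1 (by norm_num) (x ⟨i, h⟩) else 0
  have m : ∀ x, p x ∈ Q := fun x i _ => by
    simp only [p]
    split_ifs
    exacts [Subtype.prop _, by simp]
  have k : ∀ x, ‖x‖ = 1 → ∀ i : Fin (s.card + 1), p x i = x i := fun x a i => by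
    simp only [p, i.2, dif_pos]
    rw [projIcc_of_mem _ (abs_le.1 (a ▸ PiLp.norm_apply_le x i))]
  have c : Continuous fun x => z ⟨_, B0 (m x)⟩ := by
    have : Continuous p := continuous_pi fun i => by
      simp only [p]
      split_ifs
      exacts [continuous_subtype_val.comp (continuous_projIcc.comp (PiLp.continuous_apply ..)), continuous_const]
    exact Continuous.subtype_mk (by unfold e; fun_prop) _
  obtain ⟨x, a, b⟩ := Pool.Agent.Lib.helper9.BorsukUlam.borsuk_ulam (E := EuclideanSpace ℝ (Fin (s.card + 1))) (F := s → ℝ) (.inr (by simp))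
    (fun x φ => ∑ i : Fin (s.card + 1), (φ.1 (z ⟨_, B0 (m x)⟩)).1.2.1 i * x i) (Continuous.continuousOn (by fun_prop)) fun x a => by
      have : p (-x) = -p x := funext fun i => by
        by_cases h : i < s.card + 1
        · exact (k _ (by simpa using a) ⟨i, h⟩).trans (congrArg Neg.neg (k x a ⟨i, h⟩).symm)
        · simp only [p, dif_neg h, Pi.neg_apply, neg_zero]
      rw [show z ⟨_, B0 (m (-x))⟩ = z ⟨_, B0 (m x)⟩ from Subtype.ext (by simp [z, e, this])]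
      funext φ
      simp only [PiLp.neg_apply, mul_neg, Finset.sum_neg_distrib, Pi.neg_apply]
  have n : ∑ i, x i ^ 2 = 1 := by rw [← EuclideanSpace.real_norm_sq_eq, a, one_pow]
  refine ⟨p x, m x, fun f => by simp [← k x a, f] at n, fun φ g => ?_⟩
  have f1 := fib (h φ g) (m x)
  have f2 := tau (h φ g) (z ⟨_, B0 (m x)⟩)
  have f3 := congrFun b ⟨φ, g⟩
  obtain ⟨y, -, d⟩ := (φ (z ⟨_, B0 (m x)⟩)).2
  refine Subtype.ext (Prod.ext f1 (Prod.ext (funext fun j => ?_) f2))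
  simp only [← d] at f1 f3 ⊢
  simp only [e, z, funext_iff, Pi.zero_apply, zero_mul] at f1 f3 ⊢
  have : y.2.1 * p x j = (∑ i : Fin (s.card + 1), y.2.1 * y.1 i * x i) * y.1 j := by
    rw [← mul_one (_ * p x j), ← n, Finset.mul_sum, Finset.sum_mul]
    exact Finset.sum_congr rfl fun i _ => by linear_combination -y.2.1 * x i * f1 i j - y.2.1 * x i * p x j * k x a i
  rw [f3, zero_mul] at this
  exact pow_eq_zero_iff two_ne_zero |>.1 (by linear_combination y.2.1 ^ 2 * f1 j j + y.2.1 * p x j * this)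

theorem main (s : Finset (A ≃ₜ A)) (h : ∀ φ ∈ s, φ ∈ Arc A) :
    ∃ φ ∈ Arc A, (φ : C(A, A)) ∉ closure ((↑) '' (Subgroup.closure (s : Set (A ≃ₜ A)) : Set (A ≃ₜ A))) := by
  obtain ⟨p, a, b, c⟩ := fix s h
  obtain ⟨j, b⟩ := Function.ne_iff.1 b
  have v : ∀ t, (γ j t (z ⟨_, B0 a⟩)).1.2.1 j = t / 2 * (p j * p j) := fun t => by simp [γ, Ψ, ψ, z, e]
  refine ⟨γ j 1, .inr ⟨γ j, fun t u f => ?_, ContinuousMap.continuous_of_continuous_uncurry _ ((Ψ_cont j).comp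
    (f := fun x : unitInterval × A => ((⟨x.1, by linarith [x.1.2.1], x.1.2.2⟩ : Icc (-1 : ℝ) 1), x.2))
    (.prodMk ((continuous_subtype_val.comp continuous_fst).subtype_mk _) continuous_snd)), ?_, rfl⟩, fun f => ?_⟩
  · have := (v t).symm.trans (f ▸ v u)
    exact Subtype.ext (by simpa [show p j ≠ 0 from b] using this)
  · ext1 w
    exact Subtype.ext (by simp [γ, Ψ, ψ])
  · have := closure_minimal (t := {g : C(A, A) | g (z ⟨_, B0 a⟩) = z ⟨_, B0 a⟩}) (by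
      rintro _ ⟨g, k, rfl⟩
      induction k using Subgroup.closure_induction with
      | mem g k => exact c g k
      | one => rfl
      | mul g _ _ _ k l => exact (congrArg g l).trans k
      | inv g _ k => exact g.injective ((g.apply_symm_apply _).trans (Eq.symm k))) (isClosed_eq (continuous_eval_const _) continuous_const) f
    have := (v 1).symm.trans (congrArg (·.1.2.1 j) this)
    simp [z, e, show p j ≠ 0 from b] at this

end Pool.Agent.H.MP_f4f44f_al
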